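import Mathlib
import Pool.Agent.Lib.MP_dc06b6_nt.ClassCount

/-!
# Discrepancy of hybrid Hammersley and lattice point sets

For distinct primes `b_1, ..., b_s` and every prime `N` different from all of them there is a
generating vector `g ∈ {1, ..., N-1}^t` such that the hybrid point set `S_N(g)` has discrepancy at
most `C (log N)^(s+t) log(log N + 3) / N` (`result`), hence at most `C_ε (log N)^(s+t+ε) / N`
(`q1`).
-/

set_option autoImplicit false

namespace Pool.Agent.Results.MP_dc06b6_nt.HybridHammersley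

open Finset Pool.Agent.Lib.MP_dc06b6_nt

/-- The radical inverse `∑ a_j b^{-j-1}` of `n = ∑ a_j b^j`; the `j`-th digit is `n / b^j % b`. -/
noncomputable def radicalInverse (b n : ℕ) : ℝ :=
  ∑' j : ℕ, ((n / b ^ j % b : ℕ) : ℝ) / (b : ℝ) ^ (j + 1)

/-- The point with index `n` of the hybrid point set `S_N(g)` in dimension `1 + s + t`: first the
coordinate `n/N`, then the radical inverses of `n`, then the fractional parts `{n g_j / N}`. -/
noncomputable def hybridPoint {s t : ℕ} (b : Fin s → ℕ) (N : ℕ) (g : Fin t → ℕ) (n : ℕ) :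
    Unit ⊕ (Fin s ⊕ Fin t) → ℝ
  | Sum.inl _ => (n : ℝ) / N
  | Sum.inr (Sum.inl i) => radicalInverse (b i) n
  | Sum.inr (Sum.inr j) => Int.fract (((n * g j : ℕ) : ℝ) / N)

/-- The (extreme) discrepancy of the `N` points `z 0, ..., z (N-1)`: the supremum of
`|#{n : z_n ∈ J}/N - λ(J)|` over all boxes `J = ∏ [u_i, v_i)` contained in the unit cube. -/
noncomputable def discrepancy {ι : Type} [Fintype ι] (N : ℕ) (z : ℕ → ι → ℝ) : ℝ :=
  sSup {x | ∃ u v : ι → ℝ, (∀ i, 0 ≤ u i ∧ u i ≤ v i ∧ v i ≤ 1) ∧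
    x = |((Nat.card {n : Fin N // ∀ i, u i ≤ z n i ∧ z n i < v i} : ℕ) : ℝ) / N -
      ∏ i, (v i - u i)|}

lemma radicalInverse_eq {b : ℕ} (hb : 2 ≤ b) (J n : ℕ) (hn : n < b ^ J) :
    radicalInverse b n = (rev b J n : ℝ) / (b : ℝ) ^ J := by
  have hb0 : (b : ℝ) ≠ 0 := by positivity
  unfold radicalInverse
  rw [tsum_eq_sum (s := range J)]
  · have h : ∀ J, ∑ j ∈ range J, ((n / b ^ j % b : ℕ) : ℝ) / (b : ℝ) ^ (j + 1) =
        (rev b J n : ℝ) / (b : ℝ) ^ J := by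
      intro J
      induction J with
      | zero => simp [rev]
      | succ J ih =>
        rw [Finset.sum_range_succ, ih, rev]
        push_cast
        rw [pow_succ]
        field_simp
    exact h J
  · intro j hj
    rw [Finset.mem_range, not_lt] at hj
    have h1 : n / b ^ j = 0 :=
      Nat.div_eq_of_lt (hn.trans_le (Nat.pow_le_pow_right (by omega) hj))
    rw [h1]
    simp

lemma abs_prod_sub_prod_le {ι : Type} (s : Finset ι) (x y : ι → ℝ)
    (hx : ∀ i ∈ s, 0 ≤ x i ∧ x i ≤ 1) (hy : ∀ i ∈ s, 0 ≤ y i ∧ y i ≤ 1) :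
    |∏ i ∈ s, x i - ∏ i ∈ s, y i| ≤ ∑ i ∈ s, |x i - y i| := by
  classical
  induction s using Finset.induction_on with
  | empty => simp
  | insert a s ha ih =>
    rw [Finset.prod_insert ha, Finset.prod_insert ha, Finset.sum_insert ha]
    have ih' := ih (fun i hi => hx i (Finset.mem_insert_of_mem hi))
      fun i hi => hy i (Finset.mem_insert_of_mem hi)
    have h1 : x a * ∏ i ∈ s, x i - y a * ∏ i ∈ s, y i =
        (x a - y a) * ∏ i ∈ s, x i + y a * (∏ i ∈ s, x i - ∏ i ∈ s, y i) := by ring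
    rw [h1]
    refine (abs_add_le _ _).trans ?_
    rw [abs_mul, abs_mul]
    have h2 : |∏ i ∈ s, x i| ≤ 1 := by
      rw [abs_of_nonneg (Finset.prod_nonneg fun i hi => (hx i (Finset.mem_insert_of_mem hi)).1)]
      exact Finset.prod_le_one (fun i hi => (hx i (Finset.mem_insert_of_mem hi)).1)
        fun i hi => (hx i (Finset.mem_insert_of_mem hi)).2
    have hya := hy a (Finset.mem_insert_self a s)
    have h3 : |y a| ≤ 1 := by
      rw [abs_of_nonneg hya.1]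
      exact hya.2
    have h4 : |x a - y a| * |∏ i ∈ s, x i| ≤ |x a - y a| * 1 :=
      mul_le_mul_of_nonneg_left h2 (abs_nonneg _)
    have h5 : |y a| * |∏ i ∈ s, x i - ∏ i ∈ s, y i| ≤ 1 * |∏ i ∈ s, x i - ∏ i ∈ s, y i| :=
      mul_le_mul_of_nonneg_right h3 (abs_nonneg _)
    linarith

/-- Rounding of an interval to the grid `ℤ / D`. -/
lemma ceil_sub_ceil {D : ℕ} (hD : 0 < D) {u v : ℝ} (hu : 0 ≤ u) (huv : u ≤ v) :
    |((⌈v * D⌉₊ : ℝ) - ⌈u * D⌉₊) / D - (v - u)| ≤ 1 / D := by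
  have hD' : (0 : ℝ) < D := Nat.cast_pos.mpr hD
  have hv : 0 ≤ v := hu.trans huv
  have h1 := Nat.le_ceil (v * D)
  have h2 := Nat.ceil_lt_add_one (by positivity : 0 ≤ v * D)
  have h3 := Nat.le_ceil (u * D)
  have h4 := Nat.ceil_lt_add_one (by positivity : 0 ≤ u * D)
  have h5 : ((⌈v * D⌉₊ : ℝ) - ⌈u * D⌉₊) / D - (v - u) =
      ((⌈v * D⌉₊ : ℝ) - ⌈u * D⌉₊ - (v - u) * D) / D := by field_simp
  rw [h5, abs_div, abs_of_pos hD']
  apply div_le_div_of_nonneg_right _ hD'.le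
  rw [abs_le]
  constructor <;> nlinarith

lemma ceil_le_of_le_one {D : ℕ} {v : ℝ} (hv : v ≤ 1) : ⌈v * D⌉₊ ≤ D := by
  rw [Nat.ceil_le]
  have hD' : (0 : ℝ) ≤ D := Nat.cast_nonneg D
  nlinarith

lemma ceil_mono {D : ℕ} {u v : ℝ} (h : u ≤ v) : ⌈u * D⌉₊ ≤ ⌈v * D⌉₊ :=
  Nat.ceil_mono (mul_le_mul_of_nonneg_right h (Nat.cast_nonneg D))

lemma ceil_div_bounds {D : ℕ} (hD : 0 < D) {u v : ℝ} (h : u ≤ v) (hv : v ≤ 1) :
    0 ≤ ((⌈v * D⌉₊ : ℝ) - ⌈u * D⌉₊) / D ∧ ((⌈v * D⌉₊ : ℝ) - ⌈u * D⌉₊) / D ≤ 1 := by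
  have hD' : (0 : ℝ) < D := Nat.cast_pos.mpr hD
  have h1 : (⌈u * D⌉₊ : ℝ) ≤ ⌈v * D⌉₊ := by exact_mod_cast ceil_mono h
  have h2 : (⌈v * D⌉₊ : ℝ) ≤ D := by exact_mod_cast ceil_le_of_le_one hv
  have h3 : (0 : ℝ) ≤ ⌈u * D⌉₊ := Nat.cast_nonneg _
  constructor
  · exact div_nonneg (by linarith) hD'.le
  · rw [div_le_one hD']
    linarith

/-- The bound for one box. -/
lemma box_bound {s t : ℕ} (b : Fin s → ℕ) (hb : ∀ i, (b i).Prime) (hinj : Function.Injective b)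
    (N : ℕ) [Fact N.Prime] (g : Fin t → ZMod N) (β : ℕ) (hβ : ∀ i, b i ≤ β)
    (u v : Unit ⊕ (Fin s ⊕ Fin t) → ℝ) (huv : ∀ i, 0 ≤ u i ∧ u i ≤ v i ∧ v i ≤ 1) :
    |((Nat.card {n : Fin N // ∀ i, u i ≤ hybridPoint b N (fun j => (g j).val) n i ∧
        hybridPoint b N (fun j => (g j).val) n i < v i} : ℕ) : ℝ) / N - ∏ i, (v i - u i)| ≤
      ((2 * β : ℕ) ^ s * ∑ j ∈ Fintype.piFinset (fun _ : Fin s => range (Nat.log 2 N + 2)),
        (latErr (gen ((∏ i, b i ^ j i : ℕ) : ZMod N) g) + 1) + (1 + s + t)) / N := by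
  classical
  have hprime : N.Prime := Fact.out
  have hNpos : (0 : ℝ) < N := Nat.cast_pos.mpr hprime.pos
  set J := Nat.log 2 N + 1 with hJ
  have hNJ : ∀ i, N < b i ^ J := by
    intro i
    have h1 := Nat.lt_pow_succ_log_self (b := 2) (by norm_num) N
    exact h1.trans_le (Nat.pow_le_pow_left (hb i).two_le _)
  -- integer endpoints
  set a₀ := ⌈u (Sum.inl ()) * N⌉₊ with ha₀
  set a₁ := ⌈v (Sum.inl ()) * N⌉₊ with ha₁
  set U : Fin s → ℕ := fun i => ⌈u (Sum.inr (Sum.inl i)) * (b i ^ J : ℕ)⌉₊ with hU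
  set V' : Fin s → ℕ := fun i => ⌈v (Sum.inr (Sum.inl i)) * (b i ^ J : ℕ)⌉₊ with hV'
  set C₀ : Fin t → ℕ := fun j => ⌈u (Sum.inr (Sum.inr j)) * N⌉₊ with hC₀
  set C₁ : Fin t → ℕ := fun j => ⌈v (Sum.inr (Sum.inr j)) * N⌉₊ with hC₁
  have ha01 : a₀ ≤ a₁ := ceil_mono (huv _).2.1
  have ha1 : a₁ ≤ N := ceil_le_of_le_one (huv _).2.2
  have hUV : ∀ i, U i ≤ V' i := fun i => ceil_mono (huv _).2.1
  have hV1 : ∀ i, V' i ≤ b i ^ J := fun i => ceil_le_of_le_one (huv _).2.2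
  have hC01 : ∀ j, C₀ j ≤ C₁ j := fun j => ceil_mono (huv _).2.1
  have hC1 : ∀ j, C₁ j ≤ N := fun j => ceil_le_of_le_one (huv _).2.2
  -- the digit functions
  set G : Fin s → ℕ → ℝ := fun i n =>
    (if rev (b i) J n < V' i then 1 else 0) - (if rev (b i) J n < U i then 1 else 0) with hG
  set ρ : Fin s → ℝ := fun i => (V' i : ℝ) / (b i : ℝ) ^ J - (U i : ℝ) / (b i : ℝ) ^ J with hρ
  have hrep : ∀ i, Rep (b i) J (2 * β) (G i) (ρ i) := by
    intro i
    have h1 := rep_rev (hb i).two_le J (V' i) (hV1 i)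
    have h2 := rep_rev (hb i).two_le J (U i) ((hUV i).trans (hV1 i))
    exact (h1.sub h2).mono (by have := hβ i; omega)
  -- count as a weighted sum
  have hcount : ((Nat.card {n : Fin N // ∀ i, u i ≤ hybridPoint b N (fun j => (g j).val) n i ∧
        hybridPoint b N (fun j => (g j).val) n i < v i} : ℕ) : ℝ) =
      ∑ n ∈ Ico a₀ a₁, (∏ j, arc ((C₀ j : ℕ) : ZMod N) (C₁ j - C₀ j) ((n : ZMod N) * g j)) *
        ∏ i, G i n := by
    have hkey : ∀ n : ℕ, n < N → ((∀ i, u i ≤ hybridPoint b N (fun j => (g j).val) n i ∧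
        hybridPoint b N (fun j => (g j).val) n i < v i) ↔
        ((a₀ ≤ n ∧ n < a₁) ∧ (∀ i, U i ≤ rev (b i) J n ∧ rev (b i) J n < V' i) ∧
          ∀ j, C₀ j ≤ ((n : ZMod N) * g j).val ∧ ((n : ZMod N) * g j).val < C₁ j)) := by
      intro n hn
      rw [Sum.forall, Sum.forall]
      refine and_congr ?_ (and_congr (forall_congr' fun i => ?_) (forall_congr' fun j => ?_))
      · constructor
        · intro h
          have h1 := h ()
          simp only [hybridPoint] at h1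
          rw [le_div_iff₀ hNpos, div_lt_iff₀ hNpos] at h1
          exact ⟨Nat.ceil_le.mpr h1.1, Nat.lt_ceil.mpr h1.2⟩
        · rintro ⟨h1, h2⟩ ⟨⟩
          simp only [hybridPoint]
          rw [le_div_iff₀ hNpos, div_lt_iff₀ hNpos]
          exact ⟨Nat.ceil_le.mp h1, Nat.lt_ceil.mp h2⟩
      · simp only [hybridPoint]
        rw [radicalInverse_eq (hb i).two_le J n (hn.trans (hNJ i))]
        have hpos : (0 : ℝ) < (b i : ℝ) ^ J := by
          have := (hb i).pos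
          positivity
        rw [le_div_iff₀ hpos, div_lt_iff₀ hpos, hU, hV']
        simp only
        rw [Nat.ceil_le, Nat.lt_ceil]
        push_cast
        rfl
      · simp only [hybridPoint]
        rw [Int.fract_div_natCast_eq_div_natCast_mod, le_div_iff₀ hNpos, div_lt_iff₀ hNpos]
        have hval : ((n : ZMod N) * g j).val = n * (g j).val % N := by
          rw [ZMod.val_mul, ZMod.val_natCast, Nat.mod_eq_of_lt hn]
        rw [hval, hC₀, hC₁]
        simp only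
        rw [Nat.ceil_le, Nat.lt_ceil]
    have hcard : Nat.card {n : Fin N // ∀ i, u i ≤ hybridPoint b N (fun j => (g j).val) n i ∧
        hybridPoint b N (fun j => (g j).val) n i < v i} =
        #{n ∈ Ico a₀ a₁ | (∀ i, U i ≤ rev (b i) J n ∧ rev (b i) J n < V' i) ∧
          ∀ j, C₀ j ≤ ((n : ZMod N) * g j).val ∧ ((n : ZMod N) * g j).val < C₁ j} := by
      rw [Nat.card_eq_fintype_card, Fintype.card_subtype]
      refine Finset.card_bij (fun n _ => (n : ℕ)) ?_ ?_ ?_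
      · intro n hn
        rw [Finset.mem_filter] at hn
        have := (hkey n n.2).mp hn.2
        rw [Finset.mem_filter, Finset.mem_Ico]
        exact this
      · intro n _ n' _ h
        exact Fin.ext h
      · intro n hn
        rw [Finset.mem_filter, Finset.mem_Ico] at hn
        have hnN : n < N := hn.1.2.trans_le ha1
        refine ⟨⟨n, hnN⟩, ?_, rfl⟩
        rw [Finset.mem_filter]
        exact ⟨Finset.mem_univ _, (hkey n hnN).mpr hn⟩
    rw [hcard, Finset.card_filter, Nat.cast_sum]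
    refine Finset.sum_congr rfl fun n _ => ?_
    have e1 : ∏ j, arc ((C₀ j : ℕ) : ZMod N) (C₁ j - C₀ j) ((n : ZMod N) * g j) =
        if ∀ j, C₀ j ≤ ((n : ZMod N) * g j).val ∧ ((n : ZMod N) * g j).val < C₁ j
          then 1 else 0 := by
      rw [Finset.prod_congr rfl fun j _ => arc_eq_indicator (hC01 j) (hC1 j) _]
      split_ifs with h
      · exact Finset.prod_eq_one fun j _ => if_pos (h j)
      · push Not at h
        obtain ⟨j, hj⟩ := h
        refine Finset.prod_eq_zero (Finset.mem_univ j) (if_neg fun h' => ?_)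
        exact absurd h'.2 (not_lt.mpr (hj h'.1))
    have e2 : ∏ i, G i n =
        if ∀ i, U i ≤ rev (b i) J n ∧ rev (b i) J n < V' i then 1 else 0 := by
      have e3 : ∀ i, G i n = if U i ≤ rev (b i) J n ∧ rev (b i) J n < V' i then 1 else 0 := by
        intro i
        simp only [hG]
        have := hUV i
        split_ifs with h1 h2 h3 h3 h3 h3 <;> first | omega | norm_num
      rw [Finset.prod_congr rfl fun i _ => e3 i]
      split_ifs with h
      · exact Finset.prod_eq_one fun j _ => if_pos (h j)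
      · push Not at h
        obtain ⟨j, hj⟩ := h
        refine Finset.prod_eq_zero (Finset.mem_univ j) (if_neg fun h' => ?_)
        exact absurd h'.2 (not_lt.mpr (hj h'.1))
    rw [e1, e2]
    by_cases c1 : ∀ i, U i ≤ rev (b i) J n ∧ rev (b i) J n < V' i <;>
      by_cases c2 : ∀ j, C₀ j ≤ ((n : ZMod N) * g j).val ∧ ((n : ZMod N) * g j).val < C₁ j <;>
      simp [c1, c2]
  -- the main estimate
  have hℓ : ∀ j, C₁ j - C₀ j ≤ N := fun j => (Nat.sub_le _ _).trans (hC1 j)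
  have hmain := prod_rep b J (2 * β) G ρ hrep (Ico a₀ a₁)
    (fun n => ∏ j, arc ((C₀ j : ℕ) : ZMod N) (C₁ j - C₀ j) ((n : ZMod N) * g j))
    ((a₁ - a₀ : ℝ) * ∏ j, (((C₁ j - C₀ j : ℕ) : ℝ) / N))
    (fun j => latErr (gen ((∏ i, b i ^ j i : ℕ) : ZMod N) g) + 1) (by
      intro j _ α
      obtain ⟨a, ha⟩ := crt b hb hinj j α
      simp only [ha]
      have hB : 0 < ∏ i, b i ^ j i := Finset.prod_pos fun i _ => pow_pos (hb i).pos _
      have h1 := class_count (∏ i, b i ^ j i) hB a a₀ a₁ ha01 ha1 g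
        (fun j => ((C₀ j : ℕ) : ZMod N)) (fun j => C₁ j - C₀ j) hℓ
      have h2 : ∏ i, (1 / (b i : ℝ) ^ j i) = 1 / ((∏ i, b i ^ j i : ℕ) : ℝ) := by
        push_cast
        rw [Finset.prod_div_distrib, Finset.prod_const_one]
      rw [h2]
      exact h1)
  rw [← hcount] at hmain
  set Cnt : ℝ := ((Nat.card {n : Fin N // ∀ i, u i ≤ hybridPoint b N (fun j => (g j).val) n i ∧
        hybridPoint b N (fun j => (g j).val) n i < v i} : ℕ) : ℝ) with hCnt
  set Tot : ℝ := ((2 * β : ℕ) : ℝ) ^ s *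
    ∑ j ∈ Fintype.piFinset (fun _ : Fin s => range (J + 1)),
      (latErr (gen ((∏ i, b i ^ j i : ℕ) : ZMod N) g) + 1) with hTot
  -- rounding
  set x : Unit ⊕ (Fin s ⊕ Fin t) → ℝ := Sum.elim (fun _ => ((a₁ : ℝ) - a₀) / N)
    (Sum.elim ρ fun j => ((C₁ j : ℝ) - C₀ j) / N) with hx
  have hρeq : ∀ i, ρ i = ((V' i : ℝ) - U i) / ((b i ^ J : ℕ) : ℝ) := by
    intro i
    simp only [hρ]
    push_cast
    rw [sub_div]
  have hbpos : ∀ i, 0 < b i ^ J := fun i => pow_pos (hb i).pos _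
  have hx01 : ∀ i ∈ (Finset.univ : Finset (Unit ⊕ (Fin s ⊕ Fin t))), 0 ≤ x i ∧ x i ≤ 1 := by
    rintro (_ | i | j) _
    · exact ceil_div_bounds hprime.pos (huv _).2.1 (huv _).2.2
    · simp only [hx, Sum.elim_inr, Sum.elim_inl]
      rw [hρeq]
      exact ceil_div_bounds (hbpos i) (huv _).2.1 (huv _).2.2
    · exact ceil_div_bounds hprime.pos (huv _).2.1 (huv _).2.2
  have hy01 : ∀ i ∈ (Finset.univ : Finset (Unit ⊕ (Fin s ⊕ Fin t))),
      0 ≤ v i - u i ∧ v i - u i ≤ 1 := by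
    intro i _
    have := huv i
    constructor <;> linarith [this.1, this.2.1, this.2.2]
  have hdiff : ∀ i, |x i - (v i - u i)| ≤ 1 / N := by
    rintro (_ | i | j)
    · exact ceil_sub_ceil hprime.pos (huv _).1 (huv _).2.1
    · simp only [hx, Sum.elim_inr, Sum.elim_inl]
      rw [hρeq]
      refine (ceil_sub_ceil (hbpos i) (huv _).1 (huv _).2.1).trans ?_
      apply one_div_le_one_div_of_le hNpos
      exact_mod_cast (hNJ i).le
    · exact ceil_sub_ceil hprime.pos (huv _).1 (huv _).2.1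
  have hprod := abs_prod_sub_prod_le Finset.univ x (fun i => v i - u i) hx01 hy01
  have hsum : ∑ i, |x i - (v i - u i)| ≤ (1 + s + t) / N := by
    refine (Finset.sum_le_sum fun i _ => hdiff i).trans ?_
    rw [Finset.sum_const, Finset.card_univ, Fintype.card_sum, Fintype.card_sum, Fintype.card_unit,
      Fintype.card_fin, Fintype.card_fin, nsmul_eq_mul]
    push_cast
    apply le_of_eq
    ring
  have hxprod : ∏ i, x i = ((a₁ - a₀ : ℝ) * ∏ j, (((C₁ j - C₀ j : ℕ) : ℝ) / N)) * (∏ i, ρ i) / N := by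
    rw [Fintype.prod_sum_type, Fintype.prod_sum_type]
    simp only [hx, Finset.univ_unique, Finset.prod_singleton, Sum.elim_inl, Sum.elim_inr]
    have : ∀ j, ((C₁ j - C₀ j : ℕ) : ℝ) = (C₁ j : ℝ) - C₀ j := fun j => Nat.cast_sub (hC01 j)
    simp only [this]
    ring
  have hfin1 : |Cnt / N - ∏ i, x i| ≤ Tot / N := by
    rw [hxprod, ← sub_div, abs_div, abs_of_pos hNpos]
    exact div_le_div_of_nonneg_right hmain hNpos.le
  have htri := abs_sub_le (Cnt / N) (∏ i, x i) (∏ i, (v i - u i))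
  have hgoal : |Cnt / N - ∏ i, (v i - u i)| ≤ Tot / N + (1 + s + t) / N := by linarith
  rw [← add_div] at hgoal
  exact hgoal

/-- The set of local discrepancies is bounded, so `discrepancy` is a genuine supremum. -/
lemma le_discrepancy {ι : Type} [Fintype ι] (N : ℕ) (hN : 0 < N) (z : ℕ → ι → ℝ) (u v : ι → ℝ)
    (huv : ∀ i, 0 ≤ u i ∧ u i ≤ v i ∧ v i ≤ 1) :
    |((Nat.card {n : Fin N // ∀ i, u i ≤ z n i ∧ z n i < v i} : ℕ) : ℝ) / N -
      ∏ i, (v i - u i)| ≤ discrepancy N z := by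
  have hN' : (0 : ℝ) < N := Nat.cast_pos.mpr hN
  refine le_csSup ⟨1, ?_⟩ ⟨u, v, huv, rfl⟩
  rintro x ⟨u', v', huv', rfl⟩
  have h1 : ((Nat.card {n : Fin N // ∀ i, u' i ≤ z n i ∧ z n i < v' i} : ℕ) : ℝ) / N ≤ 1 := by
    rw [div_le_one hN']
    have : Nat.card {n : Fin N // ∀ i, u' i ≤ z n i ∧ z n i < v' i} ≤ Nat.card (Fin N) :=
      Finite.card_subtype_le _
    rw [Nat.card_fin] at this
    exact_mod_cast this
  have h2 : 0 ≤ ((Nat.card {n : Fin N // ∀ i, u' i ≤ z n i ∧ z n i < v' i} : ℕ) : ℝ) / N := by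
    positivity
  have h3 : 0 ≤ ∏ i, (v' i - u' i) :=
    Finset.prod_nonneg fun i _ => sub_nonneg.mpr (huv' i).2.1
  have h4 : ∏ i, (v' i - u' i) ≤ 1 :=
    Finset.prod_le_one (fun i _ => sub_nonneg.mpr (huv' i).2.1)
      fun i _ => by linarith [(huv' i).1, (huv' i).2.2]
  rw [abs_le]
  constructor <;> linarith

/-- The numerator of the bound, in terms of `L = ⌊log₂ N⌋`. -/
lemma numerator_bound (s t β : ℕ) (X lam Y I ce M : ℝ) (hX : 1 ≤ X) (hlam : 1 ≤ lam)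
    (hI : I = X ^ s) (hce : ce ≤ X ^ t) (hM : M ≤ (s + 3 * t + 3) * lam)
    (hY : Y ≤ 2 ^ (t + 1) * I * (X ^ t * (6 ^ (t + 1) * M + 2))) :
    ((2 * β : ℕ) : ℝ) ^ s * (2 * 7 ^ (t + 1) * (Y + I * ce) + I) + (1 + s + t) ≤
      (((2 * β : ℕ) : ℝ) ^ s * (2 * 7 ^ (t + 1) *
        (2 ^ (t + 1) * (6 ^ (t + 1) * (s + 3 * t + 3) + 2) + 1) + 1) + (1 + s + t)) *
        (X ^ (s + t) * lam) := by
  have hXs : 1 ≤ X ^ s := one_le_pow₀ hX
  have hXt : 1 ≤ X ^ t := one_le_pow₀ hX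
  have hXst : 1 ≤ X ^ (s + t) := one_le_pow₀ hX
  have hP : 1 ≤ X ^ (s + t) * lam := by nlinarith
  have h1 : Y ≤ 2 ^ (t + 1) * (6 ^ (t + 1) * (s + 3 * t + 3) + 2) * (X ^ (s + t) * lam) := by
    refine hY.trans ?_
    rw [hI]
    calc (2 : ℝ) ^ (t + 1) * X ^ s * (X ^ t * (6 ^ (t + 1) * M + 2))
        = 2 ^ (t + 1) * (X ^ (s + t)) * (6 ^ (t + 1) * M + 2) := by rw [pow_add]; ring
      _ ≤ 2 ^ (t + 1) * (X ^ (s + t)) * (6 ^ (t + 1) * ((s + 3 * t + 3) * lam) + 2 * lam) := by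
          gcongr
          linarith
      _ = _ := by ring
  have h2 : I * ce ≤ X ^ (s + t) * lam := by
    rw [hI, pow_add]
    calc X ^ s * ce ≤ X ^ s * X ^ t := by gcongr
      _ = X ^ s * X ^ t * 1 := (mul_one _).symm
      _ ≤ X ^ s * X ^ t * lam := by gcongr
  have h3 : I ≤ X ^ (s + t) * lam := by
    rw [hI, pow_add]
    calc X ^ s = X ^ s * 1 * 1 := by ring
      _ ≤ X ^ s * X ^ t * lam := by gcongr
  have h4 : (1 + s + t : ℝ) ≤ (1 + s + t) * (X ^ (s + t) * lam) := by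
    have : (0 : ℝ) ≤ 1 + s + t := by positivity
    nlinarith
  calc ((2 * β : ℕ) : ℝ) ^ s * (2 * 7 ^ (t + 1) * (Y + I * ce) + I) + (1 + s + t)
      ≤ ((2 * β : ℕ) : ℝ) ^ s * (2 * 7 ^ (t + 1) *
        (2 ^ (t + 1) * (6 ^ (t + 1) * (s + 3 * t + 3) + 2) * (X ^ (s + t) * lam) +
          X ^ (s + t) * lam) + X ^ (s + t) * lam) + (1 + s + t) * (X ^ (s + t) * lam) := by
        gcongr
    _ = _ := by ring

lemma log_facts (N : ℕ) (hN : 2 ≤ N) :
    ((Nat.log 2 N : ℝ) + 2 ≤ 5 * Real.log N) ∧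
    ((Nat.clog 2 (4 * (Nat.log 2 N + 2)) : ℝ) ≤ 8 * Real.log (Real.log N + 3)) ∧
    1 ≤ Nat.clog 2 (4 * (Nat.log 2 N + 2)) ∧ Lam N ≤ 2 ^ Nat.clog 2 (4 * (Nat.log 2 N + 2)) ∧
    0.69 ≤ Real.log N := by
  set L := Nat.log 2 N with hL
  have hNR : (2 : ℝ) ≤ N := by exact_mod_cast hN
  have hlog2 := Real.log_two_gt_d9
  have hlog2' := Real.log_two_lt_d9
  have h0 : Real.log 2 ≤ Real.log N := Real.log_le_log (by norm_num) hNR
  have h1 : (L : ℝ) * Real.log 2 ≤ Real.log N := by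
    rw [← Real.log_pow]
    apply Real.log_le_log (by positivity)
    exact_mod_cast Nat.pow_log_le_self 2 (by omega)
  have h2 : Real.log N ≤ (L + 1) * Real.log 2 := by
    have h3 : (N : ℝ) ≤ 2 ^ (L + 1) := by
      exact_mod_cast (Nat.lt_pow_succ_log_self (b := 2) (by norm_num) N).le
    calc Real.log N ≤ Real.log (2 ^ (L + 1)) := Real.log_le_log (by positivity) h3
      _ = (L + 1) * Real.log 2 := by rw [Real.log_pow]; push_cast; ring
  have hL0 : (0 : ℝ) ≤ L := Nat.cast_nonneg L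
  have hfact1 : (L : ℝ) + 2 ≤ 5 * Real.log N := by nlinarith
  have hc1 : 1 < 4 * (L + 2) := by omega
  have hc2 : 1 ≤ Nat.clog 2 (4 * (L + 2)) := Nat.clog_pos (by norm_num) hc1
  refine ⟨hfact1, ?_, hc2, ?_, by linarith⟩
  · set lam := Nat.clog 2 (4 * (L + 2)) with hlam
    have h4 : 2 ^ (lam - 1) < 4 * (L + 2) := by
      have := Nat.pow_pred_clog_lt_self (b := 2) (by norm_num) hc1
      simpa using this
    have h5 : ((2 : ℝ) ^ (lam - 1)) ≤ 4 * (L + 2) := by exact_mod_cast h4.le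
    have h6 : ((lam : ℝ) - 1) * Real.log 2 ≤ Real.log (4 * (L + 2)) := by
      have h7 : (((lam - 1 : ℕ) : ℝ)) * Real.log 2 ≤ Real.log (4 * (L + 2)) := by
        rw [← Real.log_pow]
        exact Real.log_le_log (by positivity) h5
      rwa [Nat.cast_sub hc2, Nat.cast_one] at h7
    have hx : 0 < Real.log N := by linarith
    have h8 : Real.log (4 * (L + 2)) ≤ 5 * Real.log 2 + Real.log (Real.log N + 3) := by
      have h9 : (4 : ℝ) * (L + 2) ≤ 2 ^ 5 * (Real.log N + 3) := by nlinarith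
      calc Real.log (4 * (L + 2)) ≤ Real.log (2 ^ 5 * (Real.log N + 3)) :=
            Real.log_le_log (by positivity) h9
        _ = _ := by
            rw [Real.log_mul (by positivity) (by positivity), Real.log_pow]
            norm_num
    have h10 : 1 ≤ Real.log (Real.log N + 3) := by
      rw [Real.le_log_iff_exp_le (by positivity)]
      have := Real.exp_one_lt_d9
      linarith
    nlinarith
  · have h3 : (4 * (L + 2) : ℝ) ≤ 2 ^ Nat.clog 2 (4 * (L + 2)) := by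
      exact_mod_cast Nat.le_pow_clog (by norm_num) _
    refine le_trans ?_ h3
    unfold Lam
    nlinarith

lemma kappa_bound (s t lam : ℕ) (I Λ : ℝ) (hΛ0 : 0 ≤ Λ) (hI : I ≤ (2 ^ lam) ^ s)
    (hΛ : Λ ≤ 2 ^ lam) :
    2 ^ (t + 1) * I * Λ ^ (t + 1) ≤ 2 ^ ((t + 1) + (s + t + 1) * lam) := by
  have h2 : Λ ^ (t + 1) ≤ (2 ^ lam) ^ (t + 1) := pow_le_pow_left₀ hΛ0 hΛ _
  calc 2 ^ (t + 1) * I * Λ ^ (t + 1) ≤ 2 ^ (t + 1) * (2 ^ lam) ^ s * (2 ^ lam) ^ (t + 1) := by
        gcongr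
    _ = 2 ^ ((t + 1) + (s + t + 1) * lam) := by
        rw [← pow_mul, ← pow_mul, ← pow_add, ← pow_add]
        congr 1
        ring

lemma M_bound (t lam κ : ℕ) (Λ : ℝ) (hΛ0 : 0 ≤ Λ) (hΛ : Λ ≤ 2 ^ lam) :
    Λ ^ (t + 1) * 2 ^ κ ≤ 2 ^ (κ + (t + 1) * lam) := by
  have h2 : Λ ^ (t + 1) ≤ (2 ^ lam) ^ (t + 1) := pow_le_pow_left₀ hΛ0 hΛ _
  calc Λ ^ (t + 1) * 2 ^ κ ≤ (2 ^ lam) ^ (t + 1) * 2 ^ κ := by gcongr
    _ = 2 ^ (κ + (t + 1) * lam) := by
        rw [← pow_mul, ← pow_add]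
        congr 1
        ring

/-- The main bound. -/
theorem main_bound (s t : ℕ) (b : Fin s → ℕ) (hb : ∀ i, (b i).Prime)
    (hinj : Function.Injective b) :
    ∃ C : ℝ, 0 ≤ C ∧ ∀ N : ℕ, N.Prime → (∀ i, N ≠ b i) →
      ∃ g : Fin t → ℕ, (∀ j, 1 ≤ g j ∧ g j ≤ N - 1) ∧
        discrepancy N (hybridPoint b N g) ≤
          C * (Real.log N ^ (s + t) * Real.log (Real.log N + 3)) / N := by
  classical
  set β : ℕ := ∑ i, b i with hβdef
  have hβ : ∀ i, b i ≤ β := fun i =>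
    Finset.single_le_sum (f := b) (fun i _ => Nat.zero_le _) (Finset.mem_univ i)
  set K : ℝ := ((2 * β : ℕ) : ℝ) ^ s * (2 * 7 ^ (t + 1) *
        (2 ^ (t + 1) * (6 ^ (t + 1) * (s + 3 * t + 3) + 2) + 1) + 1) + (1 + s + t) with hK
  have hK0 : 0 ≤ K := by positivity
  refine ⟨K * (5 ^ (s + t) * 8), by positivity, fun N hN hNb => ?_⟩
  have : Fact N.Prime := ⟨hN⟩
  have hNpos : (0 : ℝ) < N := Nat.cast_pos.mpr hN.pos
  obtain ⟨hf1, hf2, hf3, hf4, hf5⟩ := log_facts N hN.two_le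
  set L := Nat.log 2 N with hL
  set lam := Nat.clog 2 (4 * (L + 2)) with hlam
  have hlam2 : (4 * (L + 2) : ℝ) ≤ 2 ^ lam := by
    exact_mod_cast Nat.le_pow_clog (by norm_num) _
  set I : Finset (Fin s → ℕ) := Fintype.piFinset (fun _ : Fin s => range (L + 2)) with hI
  have hIcard : (#I : ℝ) = ((L : ℝ) + 2) ^ s := by
    rw [hI, Fintype.card_piFinset_const, Finset.card_range]
    push_cast
    rfl
  have hIne : I.Nonempty := by
    rw [← Finset.card_pos]
    have : (0 : ℝ) < #I := by rw [hIcard]; positivity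
    exact_mod_cast this
  have hβ0 : ∀ j ∈ I, (((∏ i, b i ^ j i : ℕ)) : ZMod N) ≠ 0 := by
    intro j _ h
    rw [ZMod.natCast_eq_zero_iff] at h
    rw [(Nat.Prime.prime hN).dvd_finsetProd_iff] at h
    obtain ⟨i, -, hi⟩ := h
    have h1 := hN.dvd_of_dvd_pow hi
    exact hNb i ((Nat.prime_dvd_prime_iff_eq hN (hb i)).mp h1)
  set κ := (t + 1) + (s + t + 1) * lam with hκ
  set M := κ + (t + 1) * lam with hM
  have hLam0 := Lam_pos N
  have hκ' : 2 ^ (t + 1) * #I * Lam N ^ (t + 1) ≤ 2 ^ κ := by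
    refine kappa_bound s t lam _ _ hLam0.le ?_ hf4
    rw [hIcard]
    have hL0 : (0 : ℝ) ≤ L := Nat.cast_nonneg L
    exact pow_le_pow_left₀ (by linarith) (by linarith) _
  have hM' : Lam N ^ (t + 1) * 2 ^ κ ≤ 2 ^ M := M_bound t lam κ _ hLam0.le hf4
  obtain ⟨g, hg0, hgs⟩ := exists_good (t := t) I hIne
    (fun j => (((∏ i, b i ^ j i : ℕ)) : ZMod N)) hβ0 κ M hκ' hM'
  refine ⟨fun j => (g j).val, fun j => ?_, ?_⟩
  · have h1 : (g j).val ≠ 0 := fun h => hg0 j ((ZMod.val_eq_zero _).mp h)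
    have h2 : (g j).val < N := ZMod.val_lt _
    exact ⟨Nat.one_le_iff_ne_zero.mpr h1, Nat.le_sub_one_of_lt h2⟩
  -- the bound for all boxes
  have hnum : ((2 * β : ℕ) : ℝ) ^ s * ∑ j ∈ I,
      (latErr (gen ((∏ i, b i ^ j i : ℕ) : ZMod N) g) + 1) + (1 + s + t) ≤
      K * (((L : ℝ) + 2) ^ (s + t) * lam) := by
    have hce : (#(ce (t + 1) L) : ℝ) ≤ ((L : ℝ) + 2) ^ t := by
      have h1 := card_ce_le t L
      have h2 : (L + 1) ^ t ≤ (L + 2) ^ t := Nat.pow_le_pow_left (by omega) t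
      exact_mod_cast h1.trans h2
    have hMR : (M : ℝ) ≤ (s + 3 * t + 3) * lam := by
      have : M ≤ (s + 3 * t + 3) * lam := by
        rw [hM, hκ]
        nlinarith
      exact_mod_cast this
    have hY : ∑ j ∈ I, ∑ c ∈ cs (t + 1) L,
        dualSum (gen (((∏ i, b i ^ j i : ℕ)) : ZMod N) g) c ≤
        2 ^ (t + 1) * #I * (((L : ℝ) + 2) ^ t * (6 ^ (t + 1) * M + 2)) := by
      refine hgs.trans ?_
      gcongr
      norm_num
    have h1 := numerator_bound s t β ((L : ℝ) + 2) lam _ (#I) (#(ce (t + 1) L)) M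
      (by have : (0 : ℝ) ≤ L := Nat.cast_nonneg L
          linarith) (by exact_mod_cast hf3) hIcard hce hMR hY
    refine le_trans (le_of_eq ?_) h1
    have h2 : ∑ j ∈ I, (latErr (gen ((∏ i, b i ^ j i : ℕ) : ZMod N) g) + 1) =
        2 * 7 ^ (t + 1) * (∑ j ∈ I, ∑ c ∈ cs (t + 1) L,
          dualSum (gen (((∏ i, b i ^ j i : ℕ)) : ZMod N) g) c + #I * #(ce (t + 1) L)) + #I := by
      unfold latErr
      rw [← hL, Finset.sum_add_distrib, ← Finset.mul_sum, Finset.sum_add_distrib,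
        Finset.sum_const, Finset.sum_const, nsmul_eq_mul, nsmul_eq_mul, mul_one]
    rw [h2]
  have hfinal : K * (((L : ℝ) + 2) ^ (s + t) * lam) ≤
      K * (5 ^ (s + t) * 8) * (Real.log N ^ (s + t) * Real.log (Real.log N + 3)) := by
    have h1 : ((L : ℝ) + 2) ^ (s + t) ≤ (5 * Real.log N) ^ (s + t) := by
      have : (0 : ℝ) ≤ L := Nat.cast_nonneg L
      gcongr
    have hlogN : 0 < Real.log N := by linarith
    calc K * (((L : ℝ) + 2) ^ (s + t) * lam)
        ≤ K * ((5 * Real.log N) ^ (s + t) * (8 * Real.log (Real.log N + 3))) := by gcongr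
      _ = _ := by rw [mul_pow]; ring
  apply csSup_le
  · exact ⟨_, fun _ => 0, fun _ => 0, fun _ => by norm_num, rfl⟩
  · rintro x ⟨u, v, huv, rfl⟩
    refine (box_bound b hb hinj N g β hβ u v huv).trans ?_
    apply div_le_div_of_nonneg_right _ hNpos.le
    exact hnum.trans hfinal

/-- **The main result.** Let `b_1, ..., b_s` be distinct primes.  For every prime `N` different from
all `b_i` there is `g ∈ {1, ..., N-1}^t` for which the hybrid Hammersley and lattice point set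
`S_N(g)` has discrepancy at most `C (log N)^(s+t) log(log N + 3) / N`, with `C` depending only on
`s`, `t` and the bases. -/
theorem result (s t : ℕ) (b : Fin s → ℕ) (hb : ∀ i, (b i).Prime) (hinj : Function.Injective b) :
    ∃ C : ℝ, ∀ N : ℕ, N.Prime → (∀ i, N ≠ b i) →
      ∃ g : Fin t → ℕ, (∀ j, 1 ≤ g j ∧ g j ≤ N - 1) ∧
        discrepancy N (hybridPoint b N g) ≤
          C * (Real.log N ^ (s + t) * Real.log (Real.log N + 3)) / N := by
  obtain ⟨C, -, hC⟩ := main_bound s t b hb hinj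
  exact ⟨C, hC⟩

/-- The form asked for in Q1: the bound `C (log N)^(s+t+ε) / N` holds for every `ε > 0`. -/
theorem q1 (s t : ℕ) (b : Fin s → ℕ) (hb : ∀ i, (b i).Prime) (hinj : Function.Injective b)
    (ε : ℝ) (hε : 0 < ε) :
    ∃ C : ℝ, ∀ N : ℕ, N.Prime → (∀ i, N ≠ b i) →
      ∃ g : Fin t → ℕ, (∀ j, 1 ≤ g j ∧ g j ≤ N - 1) ∧
        discrepancy N (hybridPoint b N g) ≤
          C * Real.log N ^ ((s : ℝ) + (t : ℝ) + ε) / N := by
  obtain ⟨C, hC0, hC⟩ := main_bound s t b hb hinj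
  refine ⟨C * (6 ^ ε / ε), fun N hN hNb => ?_⟩
  obtain ⟨g, hg, hD⟩ := hC N hN hNb
  refine ⟨g, hg, hD.trans ?_⟩
  have hNpos : (0 : ℝ) < N := Nat.cast_pos.mpr hN.pos
  obtain ⟨-, -, -, -, hf5⟩ := log_facts N hN.two_le
  set x := Real.log N with hx
  have hx0 : 0 < x := by linarith
  apply div_le_div_of_nonneg_right _ hNpos.le
  have h1 : Real.log (x + 3) ≤ 6 ^ ε / ε * x ^ ε := by
    calc Real.log (x + 3) ≤ (x + 3) ^ ε / ε := Real.log_le_rpow_div (by positivity) hε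
      _ ≤ (6 * x) ^ ε / ε := by
          gcongr
          linarith
      _ = 6 ^ ε / ε * x ^ ε := by
          rw [Real.mul_rpow (by norm_num) hx0.le]
          ring
  have h2 : x ^ ((s : ℝ) + (t : ℝ) + ε) = x ^ (s + t) * x ^ ε := by
    rw [Real.rpow_add hx0]
    congr 1
    rw [← Real.rpow_natCast]
    push_cast
    rfl
  calc C * (x ^ (s + t) * Real.log (x + 3)) ≤ C * (x ^ (s + t) * (6 ^ ε / ε * x ^ ε)) := by
        gcongr
    _ = C * (6 ^ ε / ε) * x ^ ((s : ℝ) + (t : ℝ) + ε) := by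
        rw [h2]
        ring

end Pool.Agent.Results.MP_dc06b6_nt.HybridHammersley
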